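import Pool.Agent.U481.HW.Stm

/-!
# Project HW, package DBL: doubling from admissibility
-/

set_option autoImplicit false

open MeasureTheory Filter Topology Set
open scoped ENNReal NNReal Real

namespace Pool.Agent.U890.HW.DBL

open Pool.Dav Pool.Agent.U481.HW

/-- the test function: `1` on the left half of `(c, c + h)`, `-1` on the right half -/
noncomputable def tf (c h y : ℝ) : ℝ :=
  (Ioo c (c + h / 2)).indicator (fun _ => (1 : ℝ)) y -
    (Ioo (c + h / 2) (c + h)).indicator (fun _ => (1 : ℝ)) y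

theorem tf_zero {c h y : ℝ} (hh : 0 < h) (hy : y ∉ Ioo c (c + h)) : tf c h y = 0 := by
  unfold tf
  rw [indicator_of_notMem, indicator_of_notMem, sub_zero]
  · intro h1; exact hy ⟨by linarith [h1.1], h1.2⟩
  · intro h1; exact hy ⟨h1.1, by linarith [h1.2]⟩

theorem tf_abs (c h y : ℝ) : |tf c h y| ≤ 1 := by
  unfold tf
  by_cases h1 : y ∈ Ioo c (c + h / 2)
  · have h2 : y ∉ Ioo (c + h / 2) (c + h) := fun h2 => by linarith [h1.2, h2.1]
    rw [indicator_of_mem h1, indicator_of_notMem h2]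
    norm_num
  · rw [indicator_of_notMem h1]
    by_cases h2 : y ∈ Ioo (c + h / 2) (c + h)
    · rw [indicator_of_mem h2]; norm_num
    · rw [indicator_of_notMem h2]; norm_num

theorem tf_integrable (c h : ℝ) : Integrable (tf c h) := by
  unfold tf
  refine Integrable.sub ?_ ?_
  · exact (integrable_indicator_iff measurableSet_Ioo).2 (integrableOn_const (by simp))
  · exact (integrable_indicator_iff measurableSet_Ioo).2 (integrableOn_const (by simp))

theorem tf_integral {c h : ℝ} (hh : 0 < h) : ∫ y, tf c h y = 0 := by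
  unfold tf
  rw [integral_sub]
  · rw [integral_indicator_const _ measurableSet_Ioo, integral_indicator_const _ measurableSet_Ioo,
      Real.volume_real_Ioo_of_le (by linarith), Real.volume_real_Ioo_of_le (by linarith)]
    simp only [smul_eq_mul]
    ring
  · exact (integrable_indicator_iff measurableSet_Ioo).2 (integrableOn_const (by simp))
  · exact (integrable_indicator_iff measurableSet_Ioo).2 (integrableOn_const (by simp))

theorem hasHilbert_of_dist {f : ℝ → ℂ} {x δ : ℝ} (hδ : 0 < δ) (h : ∀ y, |x - y| < δ → f y = 0) :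
    HasHilbert f x ((1 / (π : ℂ)) * ∫ y, f y / ((x : ℂ) - (y : ℂ))) := by
  unfold HasHilbert
  refine tendsto_const_nhds.congr' ?_
  filter_upwards [Ioo_mem_nhdsGT hδ] with ε hε
  unfold truncH
  congr 1
  refine (setIntegral_eq_integral_of_forall_compl_eq_zero ?_).symm
  intro y hy
  have hy' : ¬ ε < |x - y| := hy
  rw [h y (lt_of_le_of_lt (not_lt.1 hy') hε.2), zero_div]

theorem hilbert_eq {f : ℝ → ℂ} {x : ℝ} {v : ℂ} (h : HasHilbert f x v) : hilbert f x = v := by
  unfold hilbert
  have hex : ∃ v, HasHilbert f x v := ⟨v, h⟩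
  rw [dif_pos hex]
  exact tendsto_nhds_unique hex.choose_spec h

theorem intOn {c d x : ℝ} (h : ∀ y ∈ Icc c d, x - y ≠ 0) :
    IntegrableOn (fun y : ℝ => 1 / (x - y)) (Ioo c d) := by
  refine IntegrableOn.mono_set (ContinuousOn.integrableOn_Icc ?_) Ioo_subset_Icc_self
  exact ContinuousOn.div continuousOn_const (by fun_prop) h

theorem real_int {c h x : ℝ} (hh : 0 < h) (hx : ∀ y ∈ Icc c (c + h), x - y ≠ 0) :
    ∫ y, tf c h y / (x - y) =
      ∫ y in c..(c + h / 2), (1 / (x - y) - 1 / (x - (y + h / 2))) := by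
  have e1 : ∀ y, tf c h y / (x - y) =
      (Ioo c (c + h / 2)).indicator (fun y => 1 / (x - y)) y -
        (Ioo (c + h / 2) (c + h)).indicator (fun y => 1 / (x - y)) y := by
    intro y
    unfold tf
    by_cases h1 : y ∈ Ioo c (c + h / 2)
    · have h2 : y ∉ Ioo (c + h / 2) (c + h) := fun h2 => by linarith [h1.2, h2.1]
      rw [indicator_of_mem h1, indicator_of_notMem h2, indicator_of_mem h1,
        indicator_of_notMem h2]
      ring
    · rw [indicator_of_notMem h1, indicator_of_notMem h1]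
      by_cases h2 : y ∈ Ioo (c + h / 2) (c + h)
      · rw [indicator_of_mem h2, indicator_of_mem h2]; ring
      · rw [indicator_of_notMem h2, indicator_of_notMem h2]; ring
  have i1 : IntegrableOn (fun y : ℝ => 1 / (x - y)) (Ioo c (c + h / 2)) :=
    intOn fun y hy => hx y ⟨hy.1, by linarith [hy.2]⟩
  have i2 : IntegrableOn (fun y : ℝ => 1 / (x - y)) (Ioo (c + h / 2) (c + h)) :=
    intOn fun y hy => hx y ⟨by linarith [hy.1], hy.2⟩
  simp_rw [e1]
  rw [integral_sub ((integrable_indicator_iff measurableSet_Ioo).2 i1)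
    ((integrable_indicator_iff measurableSet_Ioo).2 i2), integral_indicator measurableSet_Ioo,
    integral_indicator measurableSet_Ioo]
  rw [← integral_Ioc_eq_integral_Ioo, ← integral_Ioc_eq_integral_Ioo,
    ← intervalIntegral.integral_of_le (by linarith), ← intervalIntegral.integral_of_le (by linarith)]
  have e2 : ∫ y in (c + h / 2)..(c + h), 1 / (x - y) =
      ∫ y in c..(c + h / 2), 1 / (x - (y + h / 2)) := by
    rw [intervalIntegral.integral_comp_add_right (fun y => 1 / (x - y)) (h / 2)]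
    congr 1
    ring
  rw [e2, intervalIntegral.integral_sub]
  · refine ContinuousOn.intervalIntegrable ?_
    rw [uIcc_of_le (by linarith)]
    exact ContinuousOn.div continuousOn_const (by fun_prop)
      fun y hy => hx y ⟨hy.1, by linarith [hy.2]⟩
  · refine ContinuousOn.intervalIntegrable ?_
    rw [uIcc_of_le (by linarith)]
    exact ContinuousOn.div continuousOn_const (by fun_prop)
      fun y hy => hx (y + h / 2) ⟨by linarith [hy.1], by linarith [hy.2]⟩

theorem lower {c h x : ℝ} (hh : 0 < h) (hx : ∀ y ∈ Icc c (c + h), x - y ≠ 0)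
    (hpos : ∀ y ∈ Icc c (c + h / 2), 0 < (x - y) * (x - (y + h / 2)) ∧
      (x - y) * (x - (y + h / 2)) ≤ 4 * h ^ 2) :
    ∫ y, tf c h y / (x - y) ≤ -(1 / 16) := by
  rw [real_int hh hx]
  have hc1 : ContinuousOn (fun y : ℝ => 1 / (x - y) - 1 / (x - (y + h / 2)))
      (uIcc c (c + h / 2)) := by
    rw [uIcc_of_le (by linarith)]
    refine ContinuousOn.sub ?_ ?_
    · exact ContinuousOn.div continuousOn_const (by fun_prop)
        fun y hy => hx y ⟨hy.1, by linarith [hy.2]⟩
    · exact ContinuousOn.div continuousOn_const (by fun_prop)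
        fun y hy => hx (y + h / 2) ⟨by linarith [hy.1], by linarith [hy.2]⟩
  have h1 : ∫ y in c..(c + h / 2), (1 / (x - y) - 1 / (x - (y + h / 2))) ≤
      ∫ _y in c..(c + h / 2), (-(1 / (8 * h)) : ℝ) := by
    refine intervalIntegral.integral_mono_on (by linarith) hc1.intervalIntegrable (by simp) ?_
    intro y hy
    obtain ⟨hp1, hp2⟩ := hpos y hy
    have n1 : x - y ≠ 0 := hx y ⟨hy.1, by linarith [hy.2]⟩
    have n2 : x - (y + h / 2) ≠ 0 := hx (y + h / 2) ⟨by linarith [hy.1], by linarith [hy.2]⟩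
    have e : 1 / (x - y) - 1 / (x - (y + h / 2)) = -((h / 2) / ((x - y) * (x - (y + h / 2)))) := by
      rw [div_sub_div _ _ n1 n2, ← neg_div]
      congr 1
      ring
    rw [e]
    refine neg_le_neg ?_
    rw [div_le_div_iff₀ (by positivity) hp1]
    nlinarith
  refine h1.trans ?_
  rw [intervalIntegral.integral_const, smul_eq_mul]
  have : (c + h / 2 - c) * -(1 / (8 * h)) = -(1 / 16) := by
    field_simp
    ring
  rw [this]

theorem hilbert_lower {c h x δ : ℝ} (hh : 0 < h) (hδ : 0 < δ)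
    (hd : ∀ y, |x - y| < δ → y ∉ Ioo c (c + h)) (hx : ∀ y ∈ Icc c (c + h), x - y ≠ 0)
    (hpos : ∀ y ∈ Icc c (c + h / 2), 0 < (x - y) * (x - (y + h / 2)) ∧
      (x - y) * (x - (y + h / 2)) ≤ 4 * h ^ 2) :
    1 / (16 * π) ≤ ‖hilbert (fun y => ((tf c h y : ℝ) : ℂ)) x‖ := by
  have h1 := hilbert_eq (hasHilbert_of_dist (f := fun y => ((tf c h y : ℝ) : ℂ)) hδ (fun y hy => by
    rw [tf_zero hh (hd y hy), Complex.ofReal_zero]))
  rw [h1]
  have h2 : ∫ y, ((tf c h y : ℝ) : ℂ) / ((x : ℂ) - (y : ℂ)) =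
      ((∫ y, tf c h y / (x - y) : ℝ) : ℂ) := by
    rw [← integral_complex_ofReal]
    refine integral_congr_ae (Eventually.of_forall fun y => ?_)
    simp
  rw [h2, norm_mul, Complex.norm_real, norm_div, norm_one, Complex.norm_real, Real.norm_eq_abs,
    Real.norm_eq_abs, abs_of_pos Real.pi_pos]
  have h3 := lower hh hx hpos
  have h4 : 1 / 16 ≤ |∫ y, tf c h y / (x - y)| := by
    rw [abs_of_nonpos (by linarith)]
    linarith
  have hpi := Real.pi_pos
  calc 1 / (16 * π) = 1 / π * (1 / 16) := by field_simp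
    _ ≤ 1 / π * |∫ y, tf c h y / (x - y)| := mul_le_mul_of_nonneg_left h4 (by positivity)

/-- the comparison of the neighbour `S` with the interval `(c, c + h)` -/
theorem compare {p : ℝ} (hp : 1 < p) {U : ℝ → ℝ≥0} {C : ℝ≥0∞}
    (hC : ∀ f : ℝ → ℂ, Integrable f → ∫ x, f x = 0 →
      (∫⁻ x, ‖hilbert f x‖ₑ ^ p * (U x : ℝ≥0∞)) ≤ C * ∫⁻ x, ‖f x‖ₑ ^ p * (U x : ℝ≥0∞))
    {c h : ℝ} (hh : 0 < h) {S : Set ℝ} (hS : MeasurableSet S)
    (hlow : ∀ x ∈ S, 1 / (16 * π) ≤ ‖hilbert (fun y => ((tf c h y : ℝ) : ℂ)) x‖) :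
    (∫⁻ x in S, (U x : ℝ≥0∞)) ≤
      (ENNReal.ofReal (16 * π) ^ p * C) * ∫⁻ x in Ioo c (c + h), (U x : ℝ≥0∞) := by
  have hpi := Real.pi_pos
  have hp0 : 0 < p := by linarith
  set f : ℝ → ℂ := fun y => ((tf c h y : ℝ) : ℂ) with hf
  have hfi : Integrable f := (tf_integrable c h).ofReal
  have hf0 : ∫ x, f x = 0 := by
    simp only [hf]
    rw [integral_complex_ofReal, tf_integral hh, Complex.ofReal_zero]
  have h1 := hC f hfi hf0
  have htop : ENNReal.ofReal (16 * π) ^ p ≠ ⊤ := (ENNReal.rpow_lt_top_of_nonneg hp0.le ENNReal.ofReal_ne_top).ne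
  have h2 : (∫⁻ x in S, (U x : ℝ≥0∞)) ≤
      ENNReal.ofReal (16 * π) ^ p * ∫⁻ x, ‖hilbert f x‖ₑ ^ p * (U x : ℝ≥0∞) := by
    rw [← lintegral_const_mul' _ _ htop, ← lintegral_indicator hS]
    refine lintegral_mono fun x => ?_
    by_cases hx : x ∈ S
    · rw [indicator_of_mem hx]
      have h3 : ENNReal.ofReal (1 / (16 * π)) ≤ ‖hilbert f x‖ₑ := by
        rw [← ofReal_norm]
        exact ENNReal.ofReal_le_ofReal (hlow x hx)
      have h4 : (1 : ℝ≥0∞) ≤ ENNReal.ofReal (16 * π) ^ p * ‖hilbert f x‖ₑ ^ p := by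
        rw [← ENNReal.mul_rpow_of_nonneg _ _ hp0.le]
        have h5 : (1 : ℝ≥0∞) ≤ ENNReal.ofReal (16 * π) * ‖hilbert f x‖ₑ := by
          calc (1 : ℝ≥0∞) = ENNReal.ofReal (16 * π) * ENNReal.ofReal (1 / (16 * π)) := by
                rw [← ENNReal.ofReal_mul (by positivity), mul_one_div_cancel (by positivity),
                  ENNReal.ofReal_one]
            _ ≤ _ := by gcongr
        calc (1 : ℝ≥0∞) = 1 ^ p := (ENNReal.one_rpow p).symm
          _ ≤ _ := ENNReal.rpow_le_rpow h5 hp0.le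
      calc (U x : ℝ≥0∞) = 1 * U x := (one_mul _).symm
        _ ≤ (ENNReal.ofReal (16 * π) ^ p * ‖hilbert f x‖ₑ ^ p) * U x := by gcongr
        _ = _ := by rw [mul_assoc]
    · rw [indicator_of_notMem hx]
      exact bot_le
  have h3 : (∫⁻ x, ‖f x‖ₑ ^ p * (U x : ℝ≥0∞)) ≤ ∫⁻ x in Ioo c (c + h), (U x : ℝ≥0∞) := by
    rw [← lintegral_indicator measurableSet_Ioo]
    refine lintegral_mono fun x => ?_
    by_cases hx : x ∈ Ioo c (c + h)
    · rw [indicator_of_mem hx]
      have h4 : ‖f x‖ₑ ≤ 1 := by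
        rw [← ofReal_norm, hf, Complex.norm_real, Real.norm_eq_abs]
        calc ENNReal.ofReal |tf c h x| ≤ ENNReal.ofReal 1 := ENNReal.ofReal_le_ofReal (tf_abs c h x)
          _ = 1 := ENNReal.ofReal_one
      calc ‖f x‖ₑ ^ p * (U x : ℝ≥0∞) ≤ 1 ^ p * U x := by gcongr
        _ = U x := by rw [ENNReal.one_rpow, one_mul]
    · rw [indicator_of_notMem hx]
      have h4 : f x = 0 := by rw [hf]; simp only; rw [tf_zero hh hx, Complex.ofReal_zero]
      rw [h4, enorm_zero, ENNReal.zero_rpow_of_pos hp0, zero_mul]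
  calc (∫⁻ x in S, (U x : ℝ≥0∞)) ≤ _ := h2
    _ ≤ ENNReal.ofReal (16 * π) ^ p * (C * ∫⁻ x in Ioo c (c + h), (U x : ℝ≥0∞)) := by
        gcongr
        exact h1.trans (by gcongr)
    _ = _ := by rw [mul_assoc]

/-- package DBL -/
theorem main : S_dbl := by
  intro p hp U _ hA
  obtain ⟨C, hCt, hC⟩ := hA
  have hp0 : 0 < p := by linarith
  have htop : ENNReal.ofReal (16 * π) ^ p < ⊤ := ENNReal.rpow_lt_top_of_nonneg hp0.le ENNReal.ofReal_ne_top
  refine ⟨ENNReal.ofReal (16 * π) ^ p * C, ENNReal.mul_lt_top htop hCt, ?_⟩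
  intro a h hh
  constructor
  · have := compare hp hC (c := a + h) hh (S := Ioo a (a + h)) measurableSet_Ioo (fun x hx => by
      refine hilbert_lower hh (δ := a + h - x) (by linarith [hx.2]) ?_ ?_ ?_
      · intro y hy hy2
        rw [abs_lt] at hy
        linarith [hy2.1]
      · intro y hy h0
        linarith [hy.1, hx.2]
      · intro y hy
        have h1 : 0 < y - x := by linarith [hy.1, hx.2]
        have h2 : y - x ≤ 2 * h := by linarith [hy.2, hx.1]
        have h3 : y + h / 2 - x ≤ 2 * h := by linarith [hy.2, hx.1]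
        constructor <;> nlinarith)
    rw [show a + h + h = a + 2 * h by ring] at this
    exact this
  · have := compare hp hC (c := a) hh (S := Ioo (a + h) (a + 2 * h)) measurableSet_Ioo (fun x hx => by
      refine hilbert_lower hh (δ := x - (a + h)) (by linarith [hx.1]) ?_ ?_ ?_
      · intro y hy hy2
        rw [abs_lt] at hy
        linarith [hy2.2]
      · intro y hy h0
        linarith [hy.2, hx.1]
      · intro y hy
        have h1 : 0 < x - (y + h / 2) := by linarith [hy.2, hx.1]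
        have h2 : x - (y + h / 2) ≤ 2 * h := by linarith [hy.1, hx.2]
        have h3 : x - y ≤ 2 * h := by linarith [hy.1, hx.2]
        constructor <;> nlinarith)
    exact this

end Pool.Agent.U890.HW.DBL
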